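import Pool.Agent.Lib.helper22.Lind

namespace Pool.Agent.H.MP_5ffaeb_an

open Metric Pool.Agent.Lib.helper22.Lind

abbrev Λ : Type := sphere (0 : C0) 1 × Bool
abbrev L : Type := lp (fun _ : Λ => ℝ) 1

open Classical in
noncomputable def u (l : Λ) : L := lp.single 1 l 1

theorem norm_u (l : Λ) : ‖u l‖ = 1 := by
  classical
  rw [u, lp.norm_single (by simp)]; simp

theorem hs (a : L) : HasSum (fun l => |a l|) ‖a‖ := by simpa using lp.hasSum_norm (by simp) a

theorem bound {Z : Type} [NormedAddCommGroup Z] [NormedSpace ℝ Z] (T : L →L[ℝ] Z) {C : ℝ}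
    (h : ∀ l, ‖T (u l)‖ ≤ C) (a : L) : ‖T a‖ ≤ C * ‖a‖ := by
  classical
  refine ((lp.hasSum_single (by simp) a).mapL T).norm_le_of_bounded ((hs a).mul_left C) fun l => ?_
  rw [show lp.single 1 l (a l) = a l • u l by rw [u, ← lp.single_smul]; simp, map_smul, norm_smul,
    mul_comm]
  exact mul_le_mul_of_nonneg_right (h l) (abs_nonneg _)

theorem nv (a : L) (l : Λ) : ‖a l • l.1.1‖ ≤ |a l| := by
  rw [norm_smul, mem_sphere_zero_iff_norm.1 l.1.2, mul_one]; rfl

theorem sm (a : L) : Summable fun l => a l • l.1.1 := .of_norm_bounded (hs a).summable (nv a)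

noncomputable def π : L →L[ℝ] C0 :=
  LinearMap.mkContinuous ⟨⟨fun a => ∑' l, a l • l.1.1, fun a b => by
    rw [← (sm a).tsum_add (sm b)]; exact tsum_congr fun l => add_smul (a l : ℝ) (b l) l.1.1⟩, fun c a => by
    rw [RingHom.id_apply, ← (sm a).tsum_const_smul c]; exact tsum_congr fun l => mul_smul _ _ _⟩ 1
    fun a => (tsum_of_norm_bounded (hs a) (nv a)).trans_eq (one_mul _).symm

theorem π_u (l : Λ) : π (u l) = l.1.1 := by
  classical
  refine (tsum_eq_single l fun k hk => ?_).trans ?_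
  · rw [u, lp.single_apply_ne _ _ _ hk, zero_smul]
  · rw [u, lp.single_apply_self, one_smul]

noncomputable def d (g : sphere (0 : C0) 1) : L →L[ℝ] ℝ :=
  lp.evalCLM ℝ (fun _ : Λ => ℝ) 1 (g, true) - lp.evalCLM ℝ (fun _ : Λ => ℝ) 1 (g, false)

open Classical in
theorem d_u (g : sphere (0 : C0) 1) (l : Λ) :
    d g (u l) = if l.1 = g then (if l.2 then 1 else -1) else 0 := by
  obtain ⟨k, b⟩ := l
  show u _ (g, true) - u _ (g, false) = _
  cases b <;> simp [u, Pi.single_apply, eq_comm (a := g)] <;> split_ifs <;> simp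

noncomputable def N : Submodule ℝ L := π.ker ⊓ ⨅ g, (d g).ker

instance : IsClosed (N : Set L) := by
  rw [N, Submodule.coe_inf, Submodule.coe_iInf]
  exact π.isClosed_ker.inter (isClosed_iInter fun g => (d g).isClosed_ker)

def X : Type := L ⧸ N
noncomputable instance : NormedAddCommGroup X := inferInstanceAs (NormedAddCommGroup (L ⧸ N))
noncomputable instance : NormedSpace ℝ X := inferInstanceAs (NormedSpace ℝ (L ⧸ N))
instance : CompleteSpace X := inferInstanceAs (CompleteSpace (L ⧸ N))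

noncomputable def q : L →L[ℝ] X := N.mkQL
noncomputable def π' : X →L[ℝ] C0 := N.liftQL π inf_le_left
noncomputable def d' (g : sphere (0 : C0) 1) : X →L[ℝ] ℝ :=
  N.liftQL (d g) (inf_le_right.trans (iInf_le _ g))

theorem ext0 (z : X) (h : π' z = 0) (k : ∀ g, d' g z = 0) : z = 0 := by
  obtain ⟨a, rfl⟩ := N.mkQ_surjective z
  exact (Submodule.Quotient.mk_eq_zero N).2 ⟨h, (Submodule.mem_iInf _).2 k⟩

theorem q_le (l : Λ) : ‖q (u l)‖ ≤ 1 := (Submodule.Quotient.norm_mk_le N _).trans (norm_u l).le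

theorem bd {Z : Type} [NormedAddCommGroup Z] [NormedSpace ℝ Z] (T : X →L[ℝ] Z) {C : ℝ} (hC : 0 ≤ C)
    (h : ∀ l, ‖T (q (u l))‖ ≤ C) : ‖T‖ ≤ C :=
  T.opNorm_le_bound hC fun z => le_of_forall_pos_le_add fun ε hε => by
    obtain ⟨a, rfl, ha⟩ := Submodule.Quotient.norm_mk_lt (S := N) z (show 0 < ε / (C + 1) by positivity)
    refine (bound (T ∘L q) h a).trans ((mul_le_mul_of_nonneg_left ha.le hC).trans ?_)
    refine (mul_add _ _ _).trans_le (add_le_add le_rfl ?_)
    rw [← mul_div_assoc, div_le_iff₀ (by positivity)]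
    linarith

theorem π_le : ‖π'‖ ≤ 1 := bd _ zero_le_one fun l =>
  (congrArg norm (π_u l)).trans_le (mem_sphere_zero_iff_norm.1 l.1.2).le

theorem sec (x : C0) : ∃ z, π' z = x ∧ (∀ g, d' g z = 0) ∧ ‖z‖ ≤ ‖x‖ := by
  rcases eq_or_ne x 0 with rfl | hx
  · exact ⟨0, map_zero _, fun _ => map_zero _, by simp⟩
  let k : sphere (0 : C0) 1 := ⟨‖x‖⁻¹ • x, mem_sphere_zero_iff_norm.2 (norm_smul_inv_norm hx)⟩
  refine ⟨(‖x‖ / 2) • (q (u (k, true)) + q (u (k, false))), ?_, fun g => ?_, ?_⟩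
  · rw [map_smul, map_add, show π' (q _) = _ from π_u _, show π' (q _) = _ from π_u _,
      ← two_smul ℝ, smul_smul, smul_smul, div_mul_cancel₀ _ two_ne_zero,
      mul_inv_cancel₀ (norm_ne_zero_iff.2 hx), one_smul]
  · rw [map_smul, map_add, show d' g (q _) = _ from d_u _ _, show d' g (q _) = _ from d_u _ _]
    split_ifs <;> simp_all
  · rw [norm_smul, Real.norm_of_nonneg (by positivity)]
    nlinarith [norm_add_le (q (u (k, true))) (q (u (k, false))), q_le (k, true), q_le (k, false),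
      norm_nonneg x]

noncomputable def j (x : C0) : X := (sec x).choose

theorem π_j (x : C0) : π' (j x) = x := (sec x).choose_spec.1
theorem d_j (x : C0) (g) : d' g (j x) = 0 := (sec x).choose_spec.2.1 g

noncomputable def J : C0 →L[ℝ] X :=
  LinearMap.mkContinuous ⟨⟨j, fun x y => sub_eq_zero.1 (ext0 _ (by simp [π_j]) (by simp [d_j]))⟩,
    fun c x => sub_eq_zero.1 (ext0 _ (by simp [π_j]) (by simp [d_j]))⟩ 1
    fun x => (sec x).choose_spec.2.2.trans_eq (one_mul _).symm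

theorem J_le : ‖J‖ ≤ 1 := LinearMap.mkContinuous_norm_le _ zero_le_one _

noncomputable def X1 : Submodule ℝ X := ⨅ g, (d' g).ker

theorem J_mem (x : C0) : J x ∈ X1 := (Submodule.mem_iInf _).2 (d_j x)

theorem J_π (z : X) (hz : z ∈ X1) : J (π' z) = z :=
  sub_eq_zero.1 (ext0 _ (by rw [map_sub]; exact sub_eq_zero.2 (π_j _)) fun g => by
    rw [map_sub]; exact sub_eq_zero.2 ((d_j _ g).trans ((Submodule.mem_iInf _).1 hz g).symm))

theorem alpha (l : Λ) : ∃ f : X →L[ℝ] ℝ, f (q (u l)) = 1 ∧ ∀ k ≠ l, |f (q (u k))| ≤ 1 / 2 := by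
  classical
  have n : ∀ k : Λ, ‖k.1.1‖ = 1 := fun k => mem_sphere_zero_iff_norm.1 k.1.2
  obtain ⟨g, g1, g2⟩ := exists_dual_vector ℝ l.1.1 (by rw [n]; exact one_ne_zero)
  have e : ∀ k : Λ, ((1 / 2 : ℝ) • (g ∘L π' + (if l.2 then 1 else -1 : ℝ) • d' l.1)) (q (u k)) =
      1 / 2 * (g k.1.1 + (if l.2 then 1 else -1) *
        if k.1 = l.1 then (if k.2 then 1 else -1) else 0) := fun k => by
    rw [← π_u, ← d_u]; rfl
  refine ⟨_, (e l).trans ?_, fun k hk => (congrArg abs (e k)).trans_le ?_⟩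
  · rw [g2, n]; cases l.2 <;> norm_num
  · by_cases h : k.1 = l.1
    · have : k.2 ≠ l.2 := fun h2 => hk (Prod.ext h h2)
      rw [if_pos h, h, g2, n]
      revert this
      cases l.2 <;> cases k.2 <;> simp
    · have := g.le_opNorm k.1.1
      rw [g1, n, Real.norm_eq_abs] at this
      rw [if_neg h, mul_zero, add_zero, abs_mul, abs_of_pos one_half_pos]
      linarith

theorem dense {Z : Type} [NormedAddCommGroup Z] [NormedSpace ℝ Z] (T : X →L[ℝ] Z) (ε : ℝ)
    (hε : 0 < ε) : ∃ (S : X →L[ℝ] Z) (x : X), ‖x‖ = 1 ∧ ‖S x‖ = ‖S‖ ∧ ‖T - S‖ ≤ ε * ‖T‖ := by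
  have one : ∀ l, ‖q (u l)‖ = 1 ∧ ∃ f : X →L[ℝ] ℝ, ‖f‖ ≤ 1 ∧ f (q (u l)) = 1 ∧
      ∀ k ≠ l, |f (q (u k))| ≤ 1 / 2 := fun l => by
    obtain ⟨f, f1, f2⟩ := alpha l
    have : ‖f‖ ≤ 1 := bd f zero_le_one fun k => by
      rcases eq_or_ne k l with rfl | h
      · simp [f1]
      · exact (f2 k h).trans (by norm_num)
    exact ⟨le_antisymm (q_le l) (by simpa [f1] using f.le_of_opNorm_le this (q (u l))),
      f, this, f1, f2⟩
  rcases eq_or_ne T 0 with rfl | hT
  · exact ⟨0, _, (one (⟨(2 : ℝ) • e 0, mem_sphere_zero_iff_norm.2 (le_antisymm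
      (nle _ zero_le_one fun n => by simp [e_app]; split_ifs <;> simp)
      (by simpa [e_app] using co ((2 : ℝ) • e 0) 0))⟩, true)).1, by simp, by simp⟩
  have T0 := norm_pos_iff.2 hT
  obtain ⟨l, hl⟩ : ∃ l, (1 + ε / 2) / (1 + ε) * ‖T‖ < ‖T (q (u l))‖ := by
    by_contra! h
    have := bd T (by positivity) h
    rw [div_mul_eq_mul_div, le_div_iff₀ (by positivity)] at this
    nlinarith
  rw [div_mul_eq_mul_div, div_lt_iff₀ (by positivity)] at hl
  obtain ⟨h1, f, f0, f1, f2⟩ := one l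
  have a : ∀ k, ‖T (q (u k))‖ ≤ ‖T‖ := fun k => T.unit_le_opNorm _ (q_le k)
  have e : ‖(T + f.smulRight (ε • T (q (u l)))) (q (u l))‖ = (1 + ε) * ‖T (q (u l))‖ := by
    rw [add_apply, ContinuousLinearMap.smulRight_apply, f1, one_smul,
      show T (q (u l)) + ε • T (q (u l)) = (1 + ε) • T (q (u l)) by rw [add_smul, one_smul],
      norm_smul, Real.norm_of_nonneg (by positivity)]
  refine ⟨T + f.smulRight (ε • T (q (u l))), q (u l), h1, le_antisymm
    (ContinuousLinearMap.unit_le_opNorm _ _ h1.le) (bd _ (norm_nonneg _) fun k => ?_), ?_⟩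
  · rcases eq_or_ne k l with rfl | h
    · rfl
    rw [e, add_apply, ContinuousLinearMap.smulRight_apply]
    refine (norm_add_le _ _).trans ?_
    rw [norm_smul, norm_smul, Real.norm_of_nonneg hε.le, Real.norm_eq_abs]
    linarith [a k, mul_le_mul (f2 k h) (mul_le_mul_of_nonneg_left (a l) hε.le) (by positivity)
      (by norm_num)]
  · rw [sub_add_cancel_left, norm_neg, ContinuousLinearMap.norm_smulRight_apply, norm_smul,
      Real.norm_of_nonneg hε.le]
    exact (mul_le_of_le_one_left (by positivity) f0).trans (mul_le_mul_of_nonneg_left (a l) hε.le)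

end Pool.Agent.H.MP_5ffaeb_an
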